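import Pool.Agent.Helper49.TP.StF

set_option autoImplicit false

namespace Pool.Agent.Helper30.TP

open Finset Pool.Agent.Helper49.TP Pool.Agent.Helper93.IA

/-- FON: the one-sided inequality. -/
theorem hFON : StFON := by
  intro n F Λ M FA FB a b Z d bad hΛ hM hF hFA hFB hsA hsB ha hb hd hZ1 hZ2 hbad hMab
  -- pointwise inequality
  have hpt : ∀ s r, (s, r) ∈ Z → ∀ c, M * (FA r c + FB c s - F) -
      M * (if c ∈ bad s r then F else 0) ≤ a r c * FA r c + b c s * FB c s := by
    intro s r hsr c
    have hA := hFA r c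
    have hB := hFB c s
    have h1 : 0 ≤ a r c * FA r c := mul_nonneg (ha r c) hA.1
    have h2 : 0 ≤ b c s * FB c s := mul_nonneg (hb c s) hB.1
    by_cases hc : c ∈ bad s r
    · rw [if_pos hc]
      have h3 : M * (FA r c + FB c s - F) - M * F ≤ 0 := by
        rw [← mul_sub]
        apply mul_nonpos_of_nonneg_of_nonpos hM
        linarith [hA.2, hB.2]
      linarith
    · rw [if_neg hc]
      have h3 := hMab s r hsr c hc
      rcases le_total (FA r c) (FB c s) with hle | hle
      · have h4 : (a r c + b c s) * FA r c ≤ a r c * FA r c + b c s * FB c s := by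
          nlinarith [mul_le_mul_of_nonneg_left hle (hb c s)]
        have h5 : M * FA r c ≤ (a r c + b c s) * FA r c := mul_le_mul_of_nonneg_right h3 hA.1
        have h6 : M * (FA r c + FB c s - F) ≤ M * FA r c :=
          mul_le_mul_of_nonneg_left (by linarith [hB.2]) hM
        linarith
      · have h4 : (a r c + b c s) * FB c s ≤ a r c * FA r c + b c s * FB c s := by
          nlinarith [mul_le_mul_of_nonneg_left hle (ha r c)]
        have h5 : M * FB c s ≤ (a r c + b c s) * FB c s := mul_le_mul_of_nonneg_right h3 hB.1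
        have h6 : M * (FA r c + FB c s - F) ≤ M * FB c s :=
          mul_le_mul_of_nonneg_left (by linarith [hA.2]) hM
        linarith
  -- one pair
  have hone : ∀ s r, (s, r) ∈ Z → (n : ℝ) * M * (2 - F - F ^ 2 / Λ) ≤
      ∑ c, a r c * FA r c + ∑ c, b c s * FB c s := by
    intro s r hsr
    have h1 := Finset.sum_le_sum (s := (univ : Finset (Fin n))) (fun c _ => hpt s r hsr c)
    rw [Finset.sum_sub_distrib, ← Finset.mul_sum, ← Finset.mul_sum, Finset.sum_sub_distrib,
      Finset.sum_add_distrib, hsA r, hsB s, Finset.sum_const, Finset.card_univ, Fintype.card_fin,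
      nsmul_eq_mul, Finset.sum_add_distrib] at h1
    have h2 : ∑ c, (if c ∈ bad s r then F else 0) = ((bad s r).card : ℝ) * F := by
      rw [Finset.sum_ite_mem, Finset.univ_inter, Finset.sum_const, nsmul_eq_mul]
    rw [h2] at h1
    have h3 : ((bad s r).card : ℝ) * F ≤ n * F / Λ * F :=
      mul_le_mul_of_nonneg_right (hbad s r hsr) hF
    have h4 : M * (((bad s r).card : ℝ) * F) ≤ M * (n * F / Λ * F) :=
      mul_le_mul_of_nonneg_left h3 hM
    have h5 : (n : ℝ) * M * (2 - F - F ^ 2 / Λ) =
        M * ((n : ℝ) + n - n * F) - M * (n * F / Λ * F) := by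
      field_simp
      ring
    linarith
  -- sum over the relation
  have hsum : ∑ s, ∑ r ∈ univ.filter (fun r => (s, r) ∈ Z),
      (n : ℝ) * M * (2 - F - F ^ 2 / Λ) ≤
      ∑ s, ∑ r ∈ univ.filter (fun r => (s, r) ∈ Z),
        (∑ c, a r c * FA r c + ∑ c, b c s * FB c s) := by
    apply Finset.sum_le_sum
    intro s _
    apply Finset.sum_le_sum
    intro r hr
    exact hone s r (Finset.mem_filter.mp hr).2
  have hL : ∑ s : Fin n, ∑ r ∈ univ.filter (fun r => (s, r) ∈ Z),
      (n : ℝ) * M * (2 - F - F ^ 2 / Λ) = (d : ℝ) * ((n : ℝ) ^ 2 * M * (2 - F - F ^ 2 / Λ)) := by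
    simp only [Finset.sum_const, hZ1, nsmul_eq_mul, Finset.card_univ, Fintype.card_fin]
    ring
  have hR : ∑ s : Fin n, ∑ r ∈ univ.filter (fun r => (s, r) ∈ Z),
      (∑ c, a r c * FA r c + ∑ c, b c s * FB c s) =
      (d : ℝ) * (∑ r, ∑ c, a r c * FA r c + ∑ c, ∑ s, b c s * FB c s) := by
    simp only [Finset.sum_add_distrib]
    rw [mul_add]
    congr 1
    · rw [Finset.sum_comm' (s' := fun r => univ.filter (fun s => (s, r) ∈ Z)) (t' := univ)
        (by intro x y; simp)]
      simp only [Finset.sum_const, hZ2, nsmul_eq_mul]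
      rw [Finset.mul_sum]
    · simp only [Finset.sum_const, hZ1, nsmul_eq_mul]
      rw [← Finset.mul_sum, Finset.sum_comm]
  rw [hL, hR] at hsum
  exact le_of_mul_le_mul_left hsum (by exact_mod_cast hd)

end Pool.Agent.Helper30.TP
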